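import Pool.Agent.helper63.NU.Defs2
import Pool.Agent.helper41.NU.A1
import Pool.Agent.helper41.NU.A2
import Pool.Agent.helper70.NU.A7
import Pool.Agent.helper51.NU.B3
import Pool.Agent.helper54.NU.D1
import Pool.Agent.helper5.NU.D2
import Pool.Agent.helper36.NU.D3a
import Pool.Agent.helper85.NU.D3b

set_option autoImplicit false
set_option linter.all false

/-! Module D4 (helper18): convexity of the Ding functional. -/

open MeasureTheory Filter Topology Set
open scoped ContDiff Manifold Matrix ENNReal ComplexOrder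

noncomputable section

namespace Pool.Agent.helper63.NU

variable {n : ℕ} {M : Type*} [TopologicalSpace M] [ChartedSpace (E n) M]
  [IsManifold 𝓘(ℂ, E n) ω M]

section basic

variable [MeasurableSpace M] [BorelSpace M]

variable {φ : Fam n M ℝ} (hφ : IsWeight 1 φ) {k N : ℕ} {s : Fin N → Fam n M ℂ}
  (hs : ∀ j, IsSec k (s j))

include hφ hs in
theorem sum_nrm_eq (w : Fin N → ℝ) {e : Ch n M} (he : e ∈ atlas (E n) M) {x : M}
    (hx : x ∈ e.source) : ∑ j, Real.exp (w j) * nrm k φ (s j) x
      = Sw (fun j => s j e) w (e x) * Real.exp (-(k * φ e (e x))) := by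
  unfold Sw
  rw [Finset.sum_mul]
  refine Finset.sum_congr rfl fun j _ => ?_
  rw [nrm_eq hφ (hs j) he hx]
  ring

include hφ hs in
theorem mean_nrm_eq (w a : Fin N → ℝ) {e : Ch n M} (he : e ∈ atlas (E n) M) {x : M}
    (hx : x ∈ e.source) : (∑ j, a j * (Real.exp (w j) * nrm k φ (s j) x)) /
        (∑ j, Real.exp (w j) * nrm k φ (s j) x) = m1 (fun j => s j e) w a (e x) := by
  unfold m1
  rw [sum_nrm_eq hφ hs w he hx]
  have h1 : ∑ j, a j * (Real.exp (w j) * nrm k φ (s j) x)
      = (∑ j, a j * (Real.exp (w j) * ‖s j e (e x)‖ ^ 2)) * Real.exp (-(k * φ e (e x))) := by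
    rw [Finset.sum_mul]
    refine Finset.sum_congr rfl fun j _ => ?_
    rw [nrm_eq hφ (hs j) he hx]
    ring
  rw [h1]
  exact mul_div_mul_right _ _ (Real.exp_pos _).ne'

end basic

theorem nrm_nonneg (k : ℕ) (φ : Fam n M ℝ) (s : Fam n M ℂ) (x : M) : 0 ≤ nrm k φ s x :=
  mul_nonneg (sq_nonneg _) (Real.exp_pos _).le

theorem sum_exp_pos {N : ℕ} {P : Fin N → ℝ} (hP0 : ∀ j, 0 ≤ P j) (hP : 0 < ∑ j, P j)
    (w : Fin N → ℝ) : 0 < ∑ j, Real.exp (w j) * P j := by
  have h1 : ∃ j ∈ Finset.univ, 0 < P j := by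
    by_contra hno
    push Not at hno
    have : ∑ j, P j ≤ 0 := Finset.sum_nonpos hno
    linarith
  obtain ⟨j, hj, hjp⟩ := h1
  exact Finset.sum_pos' (fun i _ => mul_nonneg (Real.exp_pos _).le (hP0 i))
    ⟨j, hj, mul_pos (Real.exp_pos _) hjp⟩

theorem contDiffOn_Sw {U : Set (E n)} {N : ℕ} {b : Fin N → E n → ℂ}
    (hb : ∀ j, ContDiffOn ℝ ∞ (b j) U) (w a : Fin N → ℝ) :
    ContDiffOn ℝ ∞ (fun z => ∑ j, a j * (Real.exp (w j) * ‖b j z‖ ^ 2)) U := by
  refine ContDiffOn.sum fun j _ => ?_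
  exact contDiffOn_const.mul (contDiffOn_const.mul ((hb j).norm_sq ℝ))

theorem contDiffOn_m1 {U : Set (E n)} {N : ℕ} {b : Fin N → E n → ℂ}
    (hb : ∀ j, ContDiffOn ℝ ∞ (b j) U) (w a : Fin N → ℝ) (hpos : ∀ z ∈ U, 0 < Sw b w z) :
    ContDiffOn ℝ ∞ (fun z => m1 b w a z) U := by
  unfold m1
  refine (contDiffOn_Sw hb w a).div ?_ fun z hz => (hpos z hz).ne'
  exact (contDiffOn_Sw hb w (fun _ => 1)).congr fun z hz => by simp [Sw]

variable [CompactSpace M] [T2Space M]
variable [ConnectedSpace M] [MeasurableSpace M] [BorelSpace M] {μ : Measure M} {φ : Fam n M ℝ}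

/-- Module D4: convexity of the Ding functional -/
theorem ding_convex [IsProbabilityMeasure μ] (hφ : IsPos 1 φ) (hμ : IsDens μ φ) {k N : ℕ}
    {s : Fin N → Fam n M ℂ}
    (hs : ∀ j, IsHol k (s j)) (hne : ∀ x, 0 < ∑ j, nrm k φ (s j) x) {θ : ℝ} (hθ : 0 < θ)
    (hθk : θ * k < 1) : ConvexOn ℝ univ (fun w : Fin N → ℝ =>
      -Real.log (∫ x, (∑ j, Real.exp (w j) * nrm k φ (s j) x) ^ (-θ) ∂μ)) := by
  haveI : Nonempty M := inferInstance
  have hφw : IsWeight 1 φ := hφ.toIsWeight
  have hsec : ∀ j, IsSec k (s j) := fun j => (hs j).toIsSec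
  have hcont : ∀ j, Continuous (nrm k φ (s j)) := fun j => continuous_nrm hφw (hsec j)
  have hcs : Continuous fun x => ∑ j, nrm k φ (s j) x := continuous_finset_sum _ fun j _ => hcont j
  obtain ⟨x0, -, hx0⟩ := isCompact_univ.exists_isMinOn (Set.univ_nonempty (α := M))
    hcs.continuousOn
  obtain ⟨x1, -, hx1⟩ := isCompact_univ.exists_isMaxOn (Set.univ_nonempty (α := M))
    hcs.continuousOn
  refine convex_of_var (P := fun j => nrm k φ (s j)) (fun j => (hcont j).measurable)
    (fun j x => nrm_nonneg k φ (s j) x) (hne x0) (fun x => hx0 (Set.mem_univ x))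
    (fun x => hx1 (Set.mem_univ x)) hθ ?_
  intro w a
  -- abbreviations
  set T : M → ℝ := fun x => ∑ j, Real.exp (w j) * nrm k φ (s j) x with hT
  have hTpos : ∀ x, 0 < T x := fun x =>
    sum_exp_pos (fun j => nrm_nonneg k φ (s j) x) (hne x) w
  set v : M → ℝ := fun x => (∑ j, a j * (Real.exp (w j) * nrm k φ (s j) x)) / T x with hv
  set v2 : M → ℝ := fun x => (∑ j, a j ^ 2 * (Real.exp (w j) * nrm k φ (s j) x)) / T x with hv2
  set ψ : Fam n M ℝ := fun e y => (1 - k * θ) * φ e y + θ * Real.log (Sw (fun j => s j e) w y)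
    with hψdef
  have hψ : IsPos 1 ψ := fs_isPos hφ hs hne hθ hθk w
  have hSwpos : ∀ e ∈ atlas (E n) M, ∀ z ∈ e.target, 0 < Sw (fun j => s j e) w z := by
    intro e he z hz
    have h1 := sum_nrm_eq hφw hsec w he (e.map_target hz)
    rw [e.right_inv hz] at h1
    have h2 := hTpos (e.symm z)
    simp only [hT] at h2
    rw [h1] at h2
    exact (mul_pos_iff_of_pos_right (Real.exp_pos _)).1 h2
  have hrt : ∀ x, rt φ ψ x = T x ^ (-θ) := by
    intro x
    have hx := mem_chart_source (E n) x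
    have he := chart_mem_atlas (E n) x
    have h1 := sum_nrm_eq hφw hsec w he hx
    have hp := hSwpos _ he _ ((chartAt (E n) x).map_source hx)
    simp only [hT]
    rw [h1, Real.mul_rpow hp.le (Real.exp_pos _).le, Real.rpow_def_of_pos hp, ← Real.exp_mul,
      ← Real.exp_add]
    unfold rt
    congr 1
    simp only [hψdef]
    ring
  have hTc : Continuous T := continuous_finset_sum _ fun j _ => (hcont j).const_mul _
  have hTθc : Continuous fun x => T x ^ (-θ) :=
    hTc.rpow_const fun x => Or.inl (hTpos x).ne'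
  have hvc : Continuous v :=
    (continuous_finset_sum _ fun j _ => ((hcont j).const_mul _).const_mul _).div hTc
      fun x => (hTpos x).ne'
  have hv2c : Continuous v2 :=
    (continuous_finset_sum _ fun j _ => ((hcont j).const_mul _).const_mul _).div hTc
      fun x => (hTpos x).ne'
  have hvloc : ∀ e ∈ atlas (E n) M, ∀ z ∈ e.target,
      v (e.symm z) = m1 (fun j => s j e) w a z := by
    intro e he z hz
    have h1 := mean_nrm_eq hφw hsec w a he (e.map_target hz)
    rw [e.right_inv hz] at h1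
    exact h1
  have hSm : Sm n fun x => ((v x : ℝ) : ℂ) := by
    intro e he
    have h1 : ContDiffOn ℝ ∞ (fun z => ((m1 (fun j => s j e) w a z : ℝ) : ℂ)) e.target :=
      Complex.ofRealCLM.contDiff.comp_contDiffOn
        (contDiffOn_m1 (fun j => (hsec j).smooth e he) w a (hSwpos e he))
    exact h1.congr fun z hz => by
      show ((v (e.symm z) : ℝ) : ℂ) = _
      rw [hvloc e he z hz]
  have hpoin := poincare hφw hμ hψ hSm
  -- pointwise bound for the gradient
  have hgr : ∀ x, 0 ≤ gr ψ v x ∧ θ * gr ψ v x ≤ v2 x - v x ^ 2 := by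
    intro x
    set e := chartAt (E n) x with hedef
    have hx : x ∈ e.source := mem_chart_source (E n) x
    have he : e ∈ atlas (E n) M := chart_mem_atlas (E n) x
    have hy : e x ∈ e.target := e.map_source hx
    have hΘ : (lev (ψ e) (e x)).PosDef := hψ.pos e he _ hy
    refine ⟨cn_self_nonneg hΘ _, ?_⟩
    have hnhds : e.target ∈ 𝓝 (e x) := e.open_target.mem_nhds hy
    have hdb : ∀ k', dbv (fun z => ((v (e.symm z) : ℝ) : ℂ)) (e x) k'
        = db k' (fun z => ((m1 (fun j => s j e) w a z : ℝ) : ℂ)) (e x) := by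
      intro k'
      refine db_congr ?_ k'
      filter_upwards [hnhds] with z hz
      rw [hvloc e he z hz]
    have hlevi := fun u => levi_ineq e.open_target (fun j => (hs j).hol e he) (w := w) (a := a) hy
      (hSwpos e he _ hy) u
    have hv1 : v x = m1 (fun j => s j e) w a (e x) := mean_nrm_eq hφw hsec w a he hx
    have hv2' : v2 x = m1 (fun j => s j e) w (fun j => a j ^ 2) (e x) :=
      mean_nrm_eq hφw hsec w _ he hx
    -- the Hessian of ψ
    have hφ2 : ContDiffAt ℝ 2 (φ e) (e x) :=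
      ((hφ.smooth e he).contDiffAt hnhds).of_le (WithTop.coe_le_coe.2 le_top)
    have hSws : ContDiffOn ℝ ∞ (fun z => Real.log (Sw (fun j => s j e) w z)) e.target := by
      have h1 := contDiffOn_Sw (fun j => (hsec j).smooth e he) w (fun _ => 1)
      have h2 : ContDiffOn ℝ ∞ (fun z => Sw (fun j => s j e) w z) e.target :=
        h1.congr fun z hz => by simp [Sw]
      exact h2.log fun z hz => (hSwpos e he z hz).ne'
    have hSw2 : ContDiffAt ℝ 2 (fun z => Real.log (Sw (fun j => s j e) w z)) (e x) :=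
      (hSws.contDiffAt hnhds).of_le (WithTop.coe_le_coe.2 le_top)
    have hlev : lev (ψ e) (e x) = ((1 - k * θ : ℝ) : ℂ) • lev (φ e) (e x) +
        (θ : ℂ) • lev (fun z => Real.log (Sw (fun j => s j e) w z)) (e x) := by
      rw [← lev_const_mul _ hφ2, ← lev_const_mul _ hSw2, ← lev_add]
      · exact contDiffAt_const.mul hφ2
      · exact contDiffAt_const.mul hSw2
    have hvar : 0 ≤ v2 x - v x ^ 2 := by
      -- variance is nonnegative
      have hSx := hTpos x
      have h1 : (∑ j, a j * (Real.exp (w j) * nrm k φ (s j) x)) ^ 2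
          ≤ (∑ j, a j ^ 2 * (Real.exp (w j) * nrm k φ (s j) x)) *
            ∑ j, Real.exp (w j) * nrm k φ (s j) x := by
        have h2 := Finset.sum_mul_sq_le_sq_mul_sq Finset.univ
          (fun j => a j * Real.sqrt (Real.exp (w j) * nrm k φ (s j) x))
          (fun j => Real.sqrt (Real.exp (w j) * nrm k φ (s j) x))
        have h3 : ∀ j, Real.sqrt (Real.exp (w j) * nrm k φ (s j) x) ^ 2
            = Real.exp (w j) * nrm k φ (s j) x := fun j =>
          Real.sq_sqrt (mul_nonneg (Real.exp_pos _).le (nrm_nonneg k φ (s j) x))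
        have h4 : ∀ j, a j * Real.sqrt (Real.exp (w j) * nrm k φ (s j) x) *
            Real.sqrt (Real.exp (w j) * nrm k φ (s j) x)
            = a j * (Real.exp (w j) * nrm k φ (s j) x) := fun j => by
          rw [mul_assoc, ← sq, h3]
        simp only [mul_pow, h3, h4] at h2
        exact h2
      have h5 : v x ^ 2 * T x ^ 2 = (∑ j, a j * (Real.exp (w j) * nrm k φ (s j) x)) ^ 2 := by
        simp only [hv]
        have := hSx.ne'
        field_simp
      have h6 : v2 x * T x = ∑ j, a j ^ 2 * (Real.exp (w j) * nrm k φ (s j) x) := by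
        simp only [hv2]
        have := hSx.ne'
        field_simp
      have h7 : v x ^ 2 * T x ^ 2 ≤ v2 x * T x ^ 2 := by
        rw [h5, sq (T x), ← mul_assoc, h6]
        exact h1
      have h8 := le_of_mul_le_mul_right h7 (by positivity)
      linarith
    have hbound : (cn (lev (ψ e) (e x)) (dbv (fun z => ((v (e.symm z) : ℝ) : ℂ)) (e x))
        (dbv (fun z => ((v (e.symm z) : ℝ) : ℂ)) (e x))).re ≤ (v2 x - v x ^ 2) / θ := by
      refine cn_le_of_forall hΘ (div_nonneg hvar hθ.le) fun u => ?_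
      obtain ⟨l1, l2⟩ := hlevi u
      simp only [hdb]
      refine l2.trans ?_
      rw [← hv2', ← hv1, div_mul_eq_mul_div, mul_div_assoc]
      refine mul_le_mul_of_nonneg_left ?_ hvar
      rw [le_div_iff₀ hθ]
      have hsplit : (∑ j, ∑ l, lev (ψ e) (e x) j l * u j * (starRingEnd ℂ) (u l)).re
          = (1 - k * θ) * (∑ j, ∑ l, lev (φ e) (e x) j l * u j * (starRingEnd ℂ) (u l)).re +
            θ * (∑ j, ∑ l, lev (fun z => Real.log (Sw (fun j => s j e) w z)) (e x) j l * u j *
              (starRingEnd ℂ) (u l)).re := by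
        rw [hlev]
        rw [← Complex.re_ofReal_mul, ← Complex.re_ofReal_mul, ← Complex.add_re]
        congr 1
        rw [Finset.mul_sum, Finset.mul_sum, ← Finset.sum_add_distrib]
        refine Finset.sum_congr rfl fun j _ => ?_
        rw [Finset.mul_sum, Finset.mul_sum, ← Finset.sum_add_distrib]
        refine Finset.sum_congr rfl fun l _ => ?_
        simp only [Matrix.add_apply, Matrix.smul_apply, smul_eq_mul]
        ring
      have hpφ : 0 ≤ (∑ j, ∑ l, lev (φ e) (e x) j l * u j * (starRingEnd ℂ) (u l)).re := by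
        have hpos := (hφ.pos e he _ hy).posSemidef
        have h1 := hpos.dotProduct_mulVec_nonneg (star u)
        have h2 : star (star u) ⬝ᵥ (lev (φ e) (e x)).mulVec (star u)
            = ∑ j, ∑ l, lev (φ e) (e x) j l * u j * (starRingEnd ℂ) (u l) := by
          simp only [dotProduct, Matrix.mulVec, star_star, Finset.mul_sum]
          refine Finset.sum_congr rfl fun j _ => Finset.sum_congr rfl fun l _ => ?_
          simp only [Pi.star_apply, Complex.star_def]
          ring
        rw [h2] at h1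
        exact (Complex.le_def.1 h1).1
      rw [hsplit]
      have hk1 : 0 ≤ 1 - k * θ := by nlinarith
      nlinarith [mul_nonneg hk1 hpφ]
    have : gr ψ v x ≤ (v2 x - v x ^ 2) / θ := hbound
    rw [le_div_iff₀ hθ] at this
    linarith
  -- integrate
  have hint : Integrable (fun x => (v2 x - v x ^ 2) * T x ^ (-θ)) μ :=
    ((hv2c.sub (hvc.pow 2)).mul hTθc).integrable_of_hasCompactSupport
      (HasCompactSupport.of_compactSpace _)
  have h1 : θ * ∫ x, gr ψ v x * rt φ ψ x ∂μ ≤ ∫ x, (v2 x - v x ^ 2) * T x ^ (-θ) ∂μ := by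
    rw [← integral_const_mul]
    refine integral_mono_of_nonneg (Eventually.of_forall fun x => ?_) hint
      (Eventually.of_forall fun x => ?_)
    · simp only [Pi.zero_apply]
      rw [hrt]
      exact mul_nonneg hθ.le (mul_nonneg (hgr x).1 (Real.rpow_pos_of_pos (hTpos x) _).le)
    · simp only
      rw [hrt, ← mul_assoc]
      exact mul_le_mul_of_nonneg_right (hgr x).2 (Real.rpow_pos_of_pos (hTpos x) _).le
  simp only [hrt] at hpoin h1
  have hZ : 0 ≤ ∫ x, T x ^ (-θ) ∂μ :=
    integral_nonneg fun x => (Real.rpow_pos_of_pos (hTpos x) _).le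
  calc θ * ((∫ x, v x ^ 2 * T x ^ (-θ) ∂μ) * (∫ x, T x ^ (-θ) ∂μ) -
        (∫ x, v x * T x ^ (-θ) ∂μ) ^ 2)
      ≤ θ * ((∫ x, gr ψ v x * T x ^ (-θ) ∂μ) * ∫ x, T x ^ (-θ) ∂μ) :=
        mul_le_mul_of_nonneg_left hpoin hθ.le
    _ = (θ * ∫ x, gr ψ v x * T x ^ (-θ) ∂μ) * ∫ x, T x ^ (-θ) ∂μ := by ring
    _ ≤ (∫ x, (v2 x - v x ^ 2) * T x ^ (-θ) ∂μ) * ∫ x, T x ^ (-θ) ∂μ :=
        mul_le_mul_of_nonneg_right h1 hZ

end Pool.Agent.helper63.NU
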