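import Pool.Agent.helper63.NU.Defs2

set_option autoImplicit false
set_option linter.all false

/-! Module E1 (helper18): slopes of convex functions, `FF_lip`, `slope_convex`, `slope_flag`. -/

open MeasureTheory Filter Topology Set
open scoped ContDiff Manifold Matrix ENNReal ComplexOrder

noncomputable section

namespace Pool.Agent.helper63.NU

variable {X : Type*} [MeasurableSpace X] {N : ℕ}

/-- Cauchy–Schwarz for one row. -/
theorem row_cs (a v : Fin N → ℂ) :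
    ‖∑ j, a j * v j‖ ^ 2 ≤ (∑ j, ‖a j‖ ^ 2) * ∑ j, ‖v j‖ ^ 2 := by
  have h1 : ‖∑ j, a j * v j‖ ≤ ∑ j, ‖a j‖ * ‖v j‖ := by
    refine (norm_sum_le _ _).trans (le_of_eq ?_)
    simp
  calc ‖∑ j, a j * v j‖ ^ 2 ≤ (∑ j, ‖a j‖ * ‖v j‖) ^ 2 :=
        pow_le_pow_left₀ (norm_nonneg _) h1 2
    _ ≤ _ := Finset.sum_mul_sq_le_sq_mul_sq _ _ _

theorem mulVec_sq_le (A : Matrix (Fin N) (Fin N) ℂ) (v : Fin N → ℂ) :
    ∑ i, ‖(A.mulVec v) i‖ ^ 2 ≤ (∑ i, ∑ j, ‖A i j‖ ^ 2) * ∑ j, ‖v j‖ ^ 2 := by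
  rw [Finset.sum_mul]
  exact Finset.sum_le_sum fun i _ => row_cs (A i) v

theorem le_mulVec_sq {C : Matrix (Fin N) (Fin N) ℂ} (hC : IsUnit C.det) :
    ∃ κ : ℝ, 0 < κ ∧ ∀ v : Fin N → ℂ, κ * ∑ j, ‖v j‖ ^ 2 ≤ ∑ i, ‖(C.mulVec v) i‖ ^ 2 := by
  set K : ℝ := ∑ i, ∑ j, ‖C⁻¹ i j‖ ^ 2 with hK
  have hK0 : 0 ≤ K := Finset.sum_nonneg fun i _ => Finset.sum_nonneg fun j _ => by positivity
  refine ⟨1 / (K + 1), by positivity, fun v => ?_⟩
  have h := mulVec_sq_le C⁻¹ (C.mulVec v)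
  rw [Matrix.mulVec_mulVec, Matrix.nonsing_inv_mul _ hC, Matrix.one_mulVec, ← hK] at h
  have h0 : 0 ≤ ∑ i, ‖(C.mulVec v) i‖ ^ 2 := Finset.sum_nonneg fun i _ => sq_nonneg _
  have hK1 : 0 < K + 1 := by linarith
  rw [div_mul_eq_mul_div, one_mul, div_le_iff₀ hK1, mul_add, mul_one, mul_comm _ K]
  linarith

/-- the integrand of `FF` before taking the power -/
def GG (S : X → Fin N → ℂ) (C : Matrix (Fin N) (Fin N) ℂ) (w : Fin N → ℝ) (x : X) : ℝ :=
  ∑ i, Real.exp (w i) * ‖(C.mulVec (S x)) i‖ ^ 2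

theorem FF_eq (μ : Measure X) (θ : ℝ) (S : X → Fin N → ℂ) (C : Matrix (Fin N) (Fin N) ℂ)
    (w : Fin N → ℝ) : FF μ θ S C w = -Real.log (∫ x, (GG S C w x) ^ (-θ) ∂μ) := rfl

theorem GG_measurable {S : X → Fin N → ℂ}
    (hS : ∀ c : Fin N → ℂ, Measurable fun x => ‖∑ j, c j * S x j‖)
    (C : Matrix (Fin N) (Fin N) ℂ) (w : Fin N → ℝ) : Measurable (GG S C w) := by
  unfold GG
  refine Finset.measurable_sum _ fun i _ => ?_
  exact ((hS (C i)).pow_const 2).const_mul _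

theorem GG_bounds {S : X → Fin N → ℂ} {m m' : ℝ} (hm : 0 < m)
    (hS1 : ∀ x, m ≤ ∑ j, ‖S x j‖ ^ 2) (hS2 : ∀ x, ∑ j, ‖S x j‖ ^ 2 ≤ m')
    {C : Matrix (Fin N) (Fin N) ℂ} (hC : IsUnit C.det) (w : Fin N → ℝ) :
    ∃ a b : ℝ, 0 < a ∧ 0 < b ∧ ∀ x, a ≤ GG S C w x ∧ GG S C w x ≤ b := by
  obtain ⟨κ, hκ, h⟩ := le_mulVec_sq hC
  set K : ℝ := ∑ i, ∑ j, ‖C i j‖ ^ 2 with hK
  have hK0 : 0 ≤ K := Finset.sum_nonneg fun i _ => Finset.sum_nonneg fun j _ => by positivity
  set c : ℝ := ‖w‖ with hc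
  have hw : ∀ i, |w i| ≤ c := fun i => norm_le_pi_norm w i
  refine ⟨Real.exp (-c) * (κ * m), Real.exp c * (K * |m'|) + 1, by positivity, by positivity,
    fun x => ⟨?_, ?_⟩⟩
  · calc Real.exp (-c) * (κ * m) ≤ Real.exp (-c) * (κ * ∑ j, ‖S x j‖ ^ 2) := by
          have := hS1 x; gcongr
      _ ≤ Real.exp (-c) * ∑ i, ‖(C.mulVec (S x)) i‖ ^ 2 := by
          have := h (S x); gcongr
      _ ≤ GG S C w x := by
          unfold GG
          rw [Finset.mul_sum]
          refine Finset.sum_le_sum fun i _ => ?_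
          have : -c ≤ w i := (abs_le.1 (hw i)).1
          gcongr
  · calc GG S C w x ≤ Real.exp c * ∑ i, ‖(C.mulVec (S x)) i‖ ^ 2 := by
          unfold GG
          rw [Finset.mul_sum]
          refine Finset.sum_le_sum fun i _ => ?_
          have : w i ≤ c := (abs_le.1 (hw i)).2
          gcongr
      _ ≤ Real.exp c * (K * ∑ j, ‖S x j‖ ^ 2) := by
          have := mulVec_sq_le C (S x); gcongr
      _ ≤ Real.exp c * (K * |m'|) := by
          have := (hS2 x).trans (le_abs_self m'); gcongr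
      _ ≤ _ := by linarith

/-- integrability and positivity for the integrand of `FF` -/
theorem rpow_int {μ : Measure X} [IsProbabilityMeasure μ] {G : X → ℝ} (hG : Measurable G)
    {a b : ℝ} (ha : 0 < a) (hab : ∀ x, a ≤ G x ∧ G x ≤ b) (s : ℝ) :
    Integrable (fun x => G x ^ s) μ ∧ 0 < ∫ x, G x ^ s ∂μ := by
  have hpos : ∀ x, 0 < G x := fun x => lt_of_lt_of_le ha (hab x).1
  have hbd : ∃ p q : ℝ, 0 < p ∧ ∀ x, p ≤ G x ^ s ∧ G x ^ s ≤ q := by
    rcases le_total 0 s with hs | hs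
    · exact ⟨a ^ s, b ^ s, by positivity, fun x =>
        ⟨Real.rpow_le_rpow ha.le (hab x).1 hs, Real.rpow_le_rpow (hpos x).le (hab x).2 hs⟩⟩
    · by_cases hX : Nonempty X
      · obtain ⟨x0⟩ := hX
        have hb : 0 < b := lt_of_lt_of_le (hpos x0) (hab x0).2
        exact ⟨b ^ s, a ^ s, by positivity, fun x =>
          ⟨Real.rpow_le_rpow_of_nonpos (hpos x) (hab x).2 hs,
            Real.rpow_le_rpow_of_nonpos ha (hab x).1 hs⟩⟩
      · exact ⟨1, 1, one_pos, fun x => (hX ⟨x⟩).elim⟩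
  obtain ⟨p, q, hp, hpq⟩ := hbd
  have hint : Integrable (fun x => G x ^ s) μ := by
    refine Integrable.of_bound (hG.pow_const s).aestronglyMeasurable q ?_
    exact Eventually.of_forall fun x => by
      rw [Real.norm_of_nonneg (hp.le.trans (hpq x).1)]; exact (hpq x).2
  refine ⟨hint, lt_of_lt_of_le hp ?_⟩
  calc p = ∫ x, p ∂μ := by simp
    _ ≤ _ := integral_mono (integrable_const _) hint fun x => (hpq x).1

theorem FF_le_of_GG_le {μ : Measure X} [IsProbabilityMeasure μ] {S : X → Fin N → ℂ} {θ m m' : ℝ}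
    (hS : ∀ c : Fin N → ℂ, Measurable fun x => ‖∑ j, c j * S x j‖) (hm : 0 < m)
    (hS1 : ∀ x, m ≤ ∑ j, ‖S x j‖ ^ 2) (hS2 : ∀ x, ∑ j, ‖S x j‖ ^ 2 ≤ m') (hθ : 0 < θ)
    {C C' : Matrix (Fin N) (Fin N) ℂ} (hC : IsUnit C.det) (hC' : IsUnit C'.det)
    {w w' : Fin N → ℝ} {c : ℝ}
    (h : ∀ x, GG S C w x ≤ Real.exp c * GG S C' w' x) : FF μ θ S C w ≤ FF μ θ S C' w' + θ * c := by
  obtain ⟨a, b, ha, hb, hab⟩ := GG_bounds hm hS1 hS2 hC w
  obtain ⟨a', b', ha', hb', hab'⟩ := GG_bounds hm hS1 hS2 hC' w'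
  obtain ⟨i1, p1⟩ := rpow_int (μ := μ) (GG_measurable hS C w) ha hab (-θ)
  obtain ⟨i2, p2⟩ := rpow_int (μ := μ) (GG_measurable hS C' w') ha' hab' (-θ)
  rw [FF_eq, FF_eq]
  have key : Real.exp (-(θ * c)) * ∫ x, (GG S C' w' x) ^ (-θ) ∂μ ≤ ∫ x, (GG S C w x) ^ (-θ) ∂μ := by
    rw [← integral_const_mul]
    refine integral_mono (i2.const_mul _) i1 fun x => ?_
    have hp := lt_of_lt_of_le ha (hab x).1
    have hp' := lt_of_lt_of_le ha' (hab' x).1
    have h1 : (Real.exp c * GG S C' w' x) ^ (-θ) ≤ (GG S C w x) ^ (-θ) :=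
      Real.rpow_le_rpow_of_nonpos hp (h x) (by linarith)
    rw [Real.mul_rpow (Real.exp_pos _).le hp'.le, ← Real.exp_mul] at h1
    have e1 : c * -θ = -(θ * c) := by ring
    rw [e1] at h1
    exact h1
  have hlog := Real.log_le_log (by positivity) key
  rw [Real.log_mul (Real.exp_pos _).ne' p2.ne', Real.log_exp] at hlog
  linarith

theorem FF_lip {μ : Measure X} [IsProbabilityMeasure μ] {S : X → Fin N → ℂ} {θ m m' : ℝ}
    (hS : ∀ c : Fin N → ℂ, Measurable fun x => ‖∑ j, c j * S x j‖) (hm : 0 < m)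
    (hS1 : ∀ x, m ≤ ∑ j, ‖S x j‖ ^ 2) (hS2 : ∀ x, ∑ j, ‖S x j‖ ^ 2 ≤ m') (hθ : 0 < θ)
    {C : Matrix (Fin N) (Fin N) ℂ} (hC : IsUnit C.det) {w w' : Fin N → ℝ} {c : ℝ}
    (h : ∀ i, w i ≤ w' i + c) : FF μ θ S C w ≤ FF μ θ S C w' + θ * c := by
  refine FF_le_of_GG_le hS hm hS1 hS2 hθ hC hC fun x => ?_
  unfold GG
  rw [Finset.mul_sum]
  refine Finset.sum_le_sum fun i _ => ?_
  rw [← mul_assoc, ← Real.exp_add]
  have := h i
  have h2 : w i ≤ c + w' i := by linarith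
  gcongr

theorem FF_lip_zero {μ : Measure X} [IsProbabilityMeasure μ] {S : X → Fin N → ℂ} {θ m m' : ℝ}
    (hS : ∀ c : Fin N → ℂ, Measurable fun x => ‖∑ j, c j * S x j‖) (hm : 0 < m)
    (hS1 : ∀ x, m ≤ ∑ j, ‖S x j‖ ^ 2) (hS2 : ∀ x, ∑ j, ‖S x j‖ ^ 2 ≤ m') (hθ : 0 < θ)
    {C : Matrix (Fin N) (Fin N) ℂ} (hC : IsUnit C.det) (w : Fin N → ℝ) :
    |FF μ θ S C w - FF μ θ S C 0| ≤ θ * ‖w‖ := by
  have hw : ∀ i, |w i| ≤ ‖w‖ := fun i => norm_le_pi_norm w i
  rw [abs_le]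
  constructor
  · have := FF_lip (μ := μ) hS hm hS1 hS2 hθ hC (w := 0) (w' := w) (c := ‖w‖)
      (fun i => by have := (abs_le.1 (hw i)).1; simp; linarith)
    linarith
  · have := FF_lip (μ := μ) hS hm hS1 hS2 hθ hC (w := w) (w' := 0) (c := ‖w‖)
      (fun i => by have := (abs_le.1 (hw i)).2; simp; linarith)
    linarith

section slope

variable {F : (Fin N → ℝ) → ℝ} (hF : ConvexOn ℝ univ F) {L : ℝ}
  (hL : ∀ w, |F w - F 0| ≤ L * ‖w‖)

include hL in
theorem quot_abs (lam : Fin N → ℝ) {t : ℝ} (ht : 0 < t) :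
    |(F (t • lam) - F 0) / t| ≤ L * ‖lam‖ := by
  rw [abs_div, abs_of_pos ht, div_le_iff₀ ht]
  have := hL (t • lam)
  rw [norm_smul, Real.norm_of_nonneg ht.le] at this
  linarith

include hL in
theorem quot_bdd (lam : Fin N → ℝ) :
    BddAbove (Set.range fun t : Set.Ioi (0 : ℝ) => (F ((t : ℝ) • lam) - F 0) / t) := by
  refine ⟨L * ‖lam‖, ?_⟩
  rintro _ ⟨t, rfl⟩
  exact (abs_le.1 (quot_abs hL lam t.2)).2

include hL in
theorem quot_le_slope (lam : Fin N → ℝ) {t : ℝ} (ht : 0 < t) :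
    (F (t • lam) - F 0) / t ≤ slope F lam :=
  le_ciSup (quot_bdd hL lam) ⟨t, ht⟩

instance : Nonempty (Set.Ioi (0 : ℝ)) := ⟨⟨1, Set.mem_Ioi.2 one_pos⟩⟩

include hF in
theorem quot_mono (lam : Fin N → ℝ) {s t : ℝ} (hs : 0 < s) (hst : s ≤ t) :
    (F (s • lam) - F 0) / s ≤ (F (t • lam) - F 0) / t := by
  have ht : 0 < t := lt_of_lt_of_le hs hst
  have hst1 : 0 ≤ 1 - s / t := by rw [sub_nonneg, div_le_one ht]; exact hst
  have h := hF.2 (Set.mem_univ (t • lam)) (Set.mem_univ (0 : Fin N → ℝ))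
    (div_nonneg hs.le ht.le) hst1 (by ring)
  rw [smul_zero, add_zero, smul_smul, div_mul_cancel₀ _ ht.ne'] at h
  simp only [smul_eq_mul] at h
  rw [div_le_div_iff₀ hs ht]
  have h2 : t * F (s • lam) ≤ s * F (t • lam) + (t - s) * F 0 := by
    have := mul_le_mul_of_nonneg_left h ht.le
    have e : t * (s / t * F (t • lam) + (1 - s / t) * F 0)
        = s * F (t • lam) + (t - s) * F 0 := by
      field_simp
    linarith
  nlinarith

include hF hL in
theorem slope_tendsto (lam : Fin N → ℝ) :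
    Tendsto (fun t : ℝ => (F (t • lam) - F 0) / t) atTop (𝓝 (slope F lam)) := by
  rw [tendsto_order]
  constructor
  · intro a ha
    obtain ⟨t, ht⟩ := exists_lt_of_lt_ciSup ha
    filter_upwards [eventually_ge_atTop (t : ℝ)] with s hs
    exact lt_of_lt_of_le ht (quot_mono hF lam t.2 hs)
  · intro a ha
    filter_upwards [eventually_gt_atTop (0 : ℝ)] with s hs
    exact lt_of_le_of_lt (quot_le_slope hL lam hs) ha

end slope

theorem slope_convex {F : (Fin N → ℝ) → ℝ} (hF : ConvexOn ℝ univ F) {L : ℝ}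
    (hL : ∀ w, |F w - F 0| ≤ L * ‖w‖) :
    (∀ lam, ∀ t > 0, F (t • lam) - F 0 ≤ t * slope F lam) ∧
    (∀ lam, Tendsto (fun t : ℝ => (F (t • lam) - F 0) / t) atTop (𝓝 (slope F lam))) ∧
    (∀ lam, ∀ t ≥ 0, slope F (t • lam) = t * slope F lam) ∧
    (∀ lam lam', slope F (lam + lam') ≤ slope F lam + slope F lam') ∧
    (∀ lam, |slope F lam| ≤ L * ‖lam‖) ∧
    (∀ lam A K, (∀ t ≥ (0 : ℝ), F (t • lam) ≤ A * t + K) → slope F lam ≤ A) := by
  refine ⟨?_, fun lam => slope_tendsto hF hL lam, ?_, ?_, ?_, ?_⟩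
  · intro lam t ht
    have := quot_le_slope hL lam ht
    rwa [div_le_iff₀ ht, mul_comm] at this
  · intro lam t ht
    rcases ht.eq_or_lt with h0 | h0
    · have h0' : t = 0 := h0.symm
      subst h0'
      rw [zero_smul, zero_mul]
      unfold slope
      simp
    · have h1 := slope_tendsto hF hL (t • lam)
      have h2 := (slope_tendsto hF hL lam).comp (tendsto_id.atTop_mul_const h0 :
        Tendsto (fun s : ℝ => id s * t) atTop atTop)
      have h3 : Tendsto (fun s : ℝ => (F (s • t • lam) - F 0) / s) atTop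
          (𝓝 (t * slope F lam)) := by
        refine (h2.const_mul t).congr' ?_
        filter_upwards [eventually_gt_atTop (0 : ℝ)] with s hs
        simp only [Function.comp, id]
        rw [smul_smul]
        field_simp
      exact tendsto_nhds_unique h1 h3
  · intro lam lam'
    refine ciSup_le fun t => ?_
    have ht : (0 : ℝ) < t := t.2
    have hh : (0 : ℝ) ≤ 1 / 2 := by norm_num
    have h := hF.2 (Set.mem_univ ((2 * (t : ℝ)) • lam)) (Set.mem_univ ((2 * (t : ℝ)) • lam'))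
      hh hh (by norm_num)
    have e : (1 / 2 : ℝ) • (2 * (t : ℝ)) • lam + (1 / 2 : ℝ) • (2 * (t : ℝ)) • lam'
        = (t : ℝ) • (lam + lam') := by
      rw [smul_smul, smul_smul, smul_add]
      congr 1 <;> · congr 1; ring
    rw [e] at h
    simp only [smul_eq_mul] at h
    have h1 := quot_le_slope hL lam (t := 2 * t) (by positivity)
    have h2 := quot_le_slope hL lam' (t := 2 * t) (by positivity)
    have h3 : (F ((t : ℝ) • (lam + lam')) - F 0) / t
        ≤ (F ((2 * (t : ℝ)) • lam) - F 0) / (2 * t) + (F ((2 * (t : ℝ)) • lam') - F 0) / (2 * t) := by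
      rw [← add_div, div_le_div_iff₀ ht (by positivity)]
      nlinarith
    linarith
  · intro lam
    have h1 := slope_tendsto hF hL lam
    refine le_of_tendsto h1.abs ?_
    filter_upwards [eventually_gt_atTop (0 : ℝ)] with s hs
    exact quot_abs hL lam hs
  · intro lam A K h
    have h1 := slope_tendsto hF hL lam
    have h2 : Tendsto (fun t : ℝ => A + (K - F 0) / t) atTop (𝓝 (A + 0)) :=
      tendsto_const_nhds.add (tendsto_const_nhds.div_atTop tendsto_id)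
    rw [add_zero] at h2
    refine le_of_tendsto_of_tendsto h1 h2 ?_
    filter_upwards [eventually_gt_atTop (0 : ℝ)] with t ht
    have := h t ht.le
    rw [div_le_iff₀ ht]
    have e : (A + (K - F 0) / t) * t = A * t + (K - F 0) := by field_simp
    rw [e]
    linarith

/-- the slope only depends on the filtration (one inequality) -/
theorem slope_flag {μ : Measure X} [IsProbabilityMeasure μ] {S : X → Fin N → ℂ} {θ m m' : ℝ}
    (hS : ∀ c : Fin N → ℂ, Measurable fun x => ‖∑ j, c j * S x j‖) (hm : 0 < m)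
    (hS1 : ∀ x, m ≤ ∑ j, ‖S x j‖ ^ 2) (hS2 : ∀ x, ∑ j, ‖S x j‖ ^ 2 ≤ m') (hθ : 0 < θ)
    {C C' : Matrix (Fin N) (Fin N) ℂ} (hC : IsUnit C.det) (hC' : IsUnit C'.det)
    (hcv : ConvexOn ℝ univ (FF μ θ S C)) (hcv' : ConvexOn ℝ univ (FF μ θ S (C' * C)))
    {lam lam' : Fin N → ℝ} (h : ∀ i j, C' i j ≠ 0 → lam' i ≤ lam j) :
    slope (FF μ θ S (C' * C)) lam' ≤ slope (FF μ θ S C) lam := by
  have hCC : IsUnit (C' * C).det := by rw [Matrix.det_mul]; exact hC'.mul hC
  have L1 := fun w => FF_lip_zero (μ := μ) hS hm hS1 hS2 hθ hC w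
  have L2 := fun w => FF_lip_zero (μ := μ) hS hm hS1 hS2 hθ hCC w
  obtain ⟨a1, -, -, -, -, -⟩ := slope_convex hcv L1
  obtain ⟨-, -, -, -, -, a6⟩ := slope_convex hcv' L2
  set K : ℝ := (∑ i, ∑ j, ‖C' i j‖ ^ 2) + 1 with hK
  have hK0 : 0 < K := by
    have : 0 ≤ ∑ i, ∑ j, ‖C' i j‖ ^ 2 :=
      Finset.sum_nonneg fun i _ => Finset.sum_nonneg fun j _ => by positivity
    linarith
  refine a6 lam' (slope (FF μ θ S C) lam) (FF μ θ S C 0 + θ * Real.log K) fun t ht => ?_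
  have h1 : FF μ θ S (C' * C) (t • lam') ≤ FF μ θ S C (t • lam) + θ * Real.log K := by
    refine FF_le_of_GG_le hS hm hS1 hS2 hθ hCC hC fun x => ?_
    rw [Real.exp_log hK0]
    have h0 : 0 ≤ GG S C (t • lam) x := Finset.sum_nonneg fun i _ => by positivity
    calc GG S (C' * C) (t • lam') x ≤ ∑ i, (∑ j, ‖C' i j‖ ^ 2) * GG S C (t • lam) x := by
          unfold GG
          refine Finset.sum_le_sum fun i _ => ?_
          rw [← Matrix.mulVec_mulVec]
          set v := C.mulVec (S x) with hv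
          have e1 : (C'.mulVec v) i = ∑ j, C' i j * (if C' i j = 0 then 0 else v j) := by
            simp only [Matrix.mulVec, dotProduct]
            refine Finset.sum_congr rfl fun j _ => ?_
            by_cases hj : C' i j = 0 <;> simp [hj]
          rw [e1]
          have e2 := row_cs (C' i) (fun j => if C' i j = 0 then 0 else v j)
          calc Real.exp ((t • lam') i) * ‖∑ j, C' i j * (if C' i j = 0 then 0 else v j)‖ ^ 2
              ≤ Real.exp ((t • lam') i) * ((∑ j, ‖C' i j‖ ^ 2) *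
                  ∑ j, ‖(if C' i j = 0 then 0 else v j : ℂ)‖ ^ 2) := by gcongr
            _ = (∑ j, ‖C' i j‖ ^ 2) * ∑ j, Real.exp ((t • lam') i) *
                  ‖(if C' i j = 0 then 0 else v j : ℂ)‖ ^ 2 := by
                rw [← Finset.mul_sum]; ring
            _ ≤ (∑ j, ‖C' i j‖ ^ 2) * ∑ j, Real.exp ((t • lam) j) * ‖v j‖ ^ 2 := by
                refine mul_le_mul_of_nonneg_left (Finset.sum_le_sum fun j _ => ?_)
                  (Finset.sum_nonneg fun j _ => sq_nonneg _)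
                by_cases hj : C' i j = 0
                · simp only [hj, if_true, norm_zero]
                  have : 0 ≤ Real.exp ((t • lam) j) * ‖v j‖ ^ 2 := by positivity
                  simpa using this
                · simp only [hj, if_false]
                  have := mul_le_mul_of_nonneg_left (h i j hj) ht
                  simp only [Pi.smul_apply, smul_eq_mul]
                  gcongr
      _ = (∑ i, ∑ j, ‖C' i j‖ ^ 2) * GG S C (t • lam) x := by rw [Finset.sum_mul]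
      _ ≤ K * GG S C (t • lam) x := by
          rw [hK]; nlinarith
  have h2 : FF μ θ S C (t • lam) ≤ FF μ θ S C 0 + slope (FF μ θ S C) lam * t := by
    rcases ht.eq_or_lt with h0 | h0
    · rw [← h0]; simp
    · have := a1 lam t h0
      linarith
  linarith

end Pool.Agent.helper63.NU
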