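import Pool.Agent.helper63.NU.Defs2
import Pool.Agent.helper18.NU.E1

set_option autoImplicit false
set_option linter.all false

/-! Module E3 (helper18): Donsker–Varadhan lower bound with Gram–Schmidt. -/

open MeasureTheory Filter Topology Set
open scoped ContDiff Manifold Matrix ENNReal ComplexOrder

noncomputable section

namespace Pool.Agent.helper63.NU

variable {X : Type*} [MeasurableSpace X] {N : ℕ}

/-- Gram–Schmidt adapted to the weights. -/
theorem exists_unitary {C : Matrix (Fin N) (Fin N) ℂ} (hC : IsUnit C.det) (lam : Fin N → ℝ) :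
    ∃ (C' : Matrix (Fin N) (Fin N) ℂ) (σ : Equiv.Perm (Fin N)), IsUnit C'.det ∧
      (C' * C) * (C' * C)ᴴ = 1 ∧ ∀ i j, C' i j ≠ 0 → lam (σ i) ≤ lam j := by
  set σ : Equiv.Perm (Fin N) := Tuple.sort (fun i => -lam i) with hσ
  have hmono : Monotone ((fun i => -lam i) ∘ σ) := Tuple.monotone_sort _
  set B : Matrix (Fin N) (Fin N) ℂ := C.submatrix σ id with hB
  have hBu : IsUnit B := by
    rw [Matrix.isUnit_iff_isUnit_det]
    have : B.det = Equiv.Perm.sign σ * C.det := Matrix.det_permute σ C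
    rw [this]
    refine IsUnit.mul ?_ hC
    rcases Int.units_eq_one_or (Equiv.Perm.sign σ) with h | h <;> rw [h] <;> simp
  have hS : (B * Bᴴ).PosDef := by
    refine Matrix.PosDef.mul_conjTranspose_self B ?_
    exact Matrix.vecMul_injective_of_isUnit hBu
  set L := LDL.lowerInv hS with hL
  have hLu : IsUnit L := (isUnit_of_invertible L)
  have hD : LDL.diag hS = L * (B * Bᴴ) * Lᴴ := LDL.diag_eq_lowerInv_conj hS
  have hDp : (LDL.diag hS).PosDef := by
    rw [hD]
    exact hS.mul_mul_conjTranspose_same (Matrix.vecMul_injective_of_isUnit hLu)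
  have hd : ∀ i, 0 < LDL.diagEntries hS i := by
    rw [LDL.diag, Matrix.posDef_diagonal_iff] at hDp
    exact hDp
  set q : Fin N → ℂ := fun i => ((1 / Real.sqrt (LDL.diagEntries hS i).re : ℝ) : ℂ) with hq
  have hq2 : ∀ i, q i * LDL.diagEntries hS i * q i = 1 := by
    intro i
    have h1 := hd i
    rw [Complex.lt_def] at h1
    have hre : 0 < (LDL.diagEntries hS i).re := h1.1
    have e : LDL.diagEntries hS i = (((LDL.diagEntries hS i).re : ℝ) : ℂ) := by
      apply Complex.ext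
      · simp
      · simpa using h1.2.symm
    have e2 : ((1 / Real.sqrt (LDL.diagEntries hS i).re : ℝ)) * (LDL.diagEntries hS i).re *
        (1 / Real.sqrt (LDL.diagEntries hS i).re : ℝ) = 1 := by
      have h3 : Real.sqrt (LDL.diagEntries hS i).re ≠ 0 := (Real.sqrt_pos.2 hre).ne'
      have h4 := Real.mul_self_sqrt hre.le
      field_simp
      nlinarith
    show ((1 / Real.sqrt (LDL.diagEntries hS i).re : ℝ) : ℂ) * LDL.diagEntries hS i *
        ((1 / Real.sqrt (LDL.diagEntries hS i).re : ℝ) : ℂ) = 1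
    rw [e]
    exact_mod_cast e2
  set T : Matrix (Fin N) (Fin N) ℂ := Matrix.diagonal q * L with hT
  have hTB : (T * B) * (T * B)ᴴ = 1 := by
    have hqs : (Matrix.diagonal q)ᴴ = Matrix.diagonal q := by
      rw [Matrix.diagonal_conjTranspose]
      congr 1
      ext i
      simp [hq]
    have e1 : (T * B) * (T * B)ᴴ = Matrix.diagonal q * (L * (B * Bᴴ) * Lᴴ) * Matrix.diagonal q := by
      rw [hT]
      simp only [Matrix.conjTranspose_mul, hqs, Matrix.mul_assoc]
    rw [e1, ← hD, LDL.diag, Matrix.diagonal_mul_diagonal, Matrix.diagonal_mul_diagonal]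
    rw [← Matrix.diagonal_one]
    congr 1
    ext i
    exact hq2 i
  refine ⟨T.submatrix id σ.symm, σ, ?_, ?_, ?_⟩
  · have e : (T.submatrix id σ.symm) * C = T * B := by
      ext i k
      simp only [Matrix.mul_apply, Matrix.submatrix_apply, id, hB]
      rw [← Equiv.sum_comp σ]
      simp
    have h2 : ((T.submatrix id σ.symm) * C).det * ((T * B)ᴴ).det = 1 := by
      rw [e, ← Matrix.det_mul, hTB, Matrix.det_one]
    rw [Matrix.det_mul] at h2
    have h3 : (T.submatrix id σ.symm).det ≠ 0 := by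
      intro h0
      rw [h0] at h2
      simp at h2
    exact isUnit_iff_ne_zero.2 h3
  · have e : (T.submatrix id σ.symm) * C = T * B := by
      ext i k
      simp only [Matrix.mul_apply, Matrix.submatrix_apply, id, hB]
      rw [← Equiv.sum_comp σ]
      simp
    rw [e, hTB]
  · intro i j hij
    have h1 : T i (σ.symm j) ≠ 0 := hij
    have h2 : L i (σ.symm j) ≠ 0 := by
      intro h0
      apply h1
      rw [hT, Matrix.diagonal_mul, h0, mul_zero]
    have h3 : σ.symm j ≤ i := by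
      by_contra hlt
      exact h2 (LDL.lowerInv_triangular hS (not_le.1 hlt))
    have h4 := hmono h3
    simp only [Function.comp, Equiv.apply_symm_apply] at h4
    linarith

theorem norm_unitary {U : Matrix (Fin N) (Fin N) ℂ} (hU : U * Uᴴ = 1) (v : Fin N → ℂ) :
    ∑ i, ‖(U.mulVec v) i‖ ^ 2 = ∑ i, ‖v i‖ ^ 2 := by
  have hU' : Uᴴ * U = 1 := mul_eq_one_comm.1 hU
  have key : ∀ z : Fin N → ℂ, ((∑ i, ‖z i‖ ^ 2 : ℝ) : ℂ) = star z ⬝ᵥ z := by
    intro z
    simp only [dotProduct, Pi.star_apply]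
    push_cast
    refine Finset.sum_congr rfl fun i _ => ?_
    rw [Complex.star_def, mul_comm, Complex.mul_conj, Complex.normSq_eq_norm_sq]
    push_cast
    rfl
  have h : ((∑ i, ‖(U.mulVec v) i‖ ^ 2 : ℝ) : ℂ) = ((∑ i, ‖v i‖ ^ 2 : ℝ) : ℂ) := by
    rw [key, key, Matrix.star_mulVec, ← Matrix.dotProduct_mulVec, Matrix.mulVec_mulVec, hU',
      Matrix.one_mulVec]
  exact_mod_cast h

theorem int_of_bdd {μ : Measure X} [IsProbabilityMeasure μ] {f : X → ℝ} (hf : Measurable f)
    (h : ∃ K, ∀ x, |f x| ≤ K) : Integrable f μ := by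
  obtain ⟨K, hK⟩ := h
  exact Integrable.of_bound hf.aestronglyMeasurable K (Eventually.of_forall hK)

theorem polar (z w : ℂ) : z * (starRingEnd ℂ) w = (1 / 4 : ℂ) *
    (((‖z + 1 * w‖ ^ 2 - ‖z + (-1) * w‖ ^ 2 : ℝ) : ℂ) +
      Complex.I * ((‖z + Complex.I * w‖ ^ 2 - ‖z + (-Complex.I) * w‖ ^ 2 : ℝ) : ℂ)) := by
  have hn : ∀ u : ℂ, ‖u‖ ^ 2 = u.re * u.re + u.im * u.im := by
    intro u
    rw [← Complex.normSq_eq_norm_sq, Complex.normSq_apply]
  rw [hn, hn, hn, hn]
  apply Complex.ext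
  · simp
    ring
  · simp
    ring

theorem meas_single {S : X → Fin N → ℂ}
    (hS : ∀ c : Fin N → ℂ, Measurable fun x => ‖∑ j, c j * S x j‖) (j k : Fin N) (a : ℂ) :
    Measurable fun x => ‖S x j + a * S x k‖ := by
  have h := hS (Pi.single j 1 + a • Pi.single k 1)
  have e : (fun x => ‖S x j + a * S x k‖)
      = fun x => ‖∑ l, (Pi.single j 1 + a • Pi.single k 1 : Fin N → ℂ) l * S x l‖ := by
    funext x
    congr 1
    simp [Pi.single_apply, add_mul, Finset.sum_add_distrib]
  rw [e]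
  exact h

theorem meas_prod {S : X → Fin N → ℂ}
    (hS : ∀ c : Fin N → ℂ, Measurable fun x => ‖∑ j, c j * S x j‖) (j k : Fin N) :
    Measurable fun x => S x j * (starRingEnd ℂ) (S x k) := by
  have e : (fun x => S x j * (starRingEnd ℂ) (S x k)) = fun x => (1 / 4 : ℂ) *
    (((‖S x j + 1 * S x k‖ ^ 2 - ‖S x j + (-1) * S x k‖ ^ 2 : ℝ) : ℂ) +
      Complex.I * ((‖S x j + Complex.I * S x k‖ ^ 2 - ‖S x j + (-Complex.I) * S x k‖ ^ 2 : ℝ) : ℂ)) := by
    funext x
    exact polar _ _
  rw [e]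
  have h1 := (meas_single hS j k 1).pow_const 2
  have h2 := (meas_single hS j k (-1)).pow_const 2
  have h3 := (meas_single hS j k Complex.I).pow_const 2
  have h4 := (meas_single hS j k (-Complex.I)).pow_const 2
  exact ((Complex.measurable_ofReal.comp (h1.sub h2)).add
    ((Complex.measurable_ofReal.comp (h3.sub h4)).const_mul _)).const_mul _

theorem meas_norm {S : X → Fin N → ℂ}
    (hS : ∀ c : Fin N → ℂ, Measurable fun x => ‖∑ j, c j * S x j‖) (j : Fin N) :
    Measurable fun x => ‖S x j‖ := by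
  have := meas_single hS j j 0
  simpa using this

theorem int_unitary {μ : Measure X} [IsProbabilityMeasure μ] {S : X → Fin N → ℂ} {D : X → ℝ}
    {m' d d' : ℝ}
    (hS : ∀ c : Fin N → ℂ, Measurable fun x => ‖∑ j, c j * S x j‖)
    (hS2 : ∀ x, ∑ j, ‖S x j‖ ^ 2 ≤ m')
    (hD : Measurable D) (hd : 0 < d) (hD1 : ∀ x, d ≤ D x) (hD2 : ∀ x, D x ≤ d')
    (horth : ∀ i j, ∫ x, S x i * (starRingEnd ℂ) (S x j) * (D x : ℂ) ∂μ = if i = j then 1 else 0)
    {U : Matrix (Fin N) (Fin N) ℂ} (hU : U * Uᴴ = 1) (i : Fin N) :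
    ∫ x, ‖(U.mulVec (S x)) i‖ ^ 2 * D x ∂μ = 1 := by
  have hb : ∀ x j, ‖S x j‖ ^ 2 ≤ m' := fun x j =>
    (Finset.single_le_sum (f := fun j => ‖S x j‖ ^ 2) (fun j _ => sq_nonneg _)
      (Finset.mem_univ j)).trans (hS2 x)
  have hI : ∀ j k, Integrable (fun x => S x j * (starRingEnd ℂ) (S x k) * (D x : ℂ)) μ := by
    intro j k
    refine Integrable.of_bound ((meas_prod hS j k).mul
      (Complex.measurable_ofReal.comp hD)).aestronglyMeasurable (m' * |d'|)
      (Eventually.of_forall fun x => ?_)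
    rw [norm_mul, norm_mul, RCLike.norm_conj, Complex.norm_real, Real.norm_eq_abs]
    have h1 := hb x j
    have h2 := hb x k
    have h3 : |D x| ≤ |d'| := abs_le_abs_of_nonneg (hd.le.trans (hD1 x)) (hD2 x)
    have h4 : ‖S x j‖ * ‖S x k‖ ≤ m' := by nlinarith [sq_nonneg (‖S x j‖ - ‖S x k‖)]
    have h5 : 0 ≤ ‖S x j‖ * ‖S x k‖ := by positivity
    exact mul_le_mul h4 h3 (abs_nonneg _) (h5.trans h4)
  have e : (fun x => ((‖(U.mulVec (S x)) i‖ ^ 2 * D x : ℝ) : ℂ)) = fun x =>
      ∑ j, ∑ k, (U i j * (starRingEnd ℂ) (U i k)) *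
        (S x j * (starRingEnd ℂ) (S x k) * (D x : ℂ)) := by
    funext x
    have h1 : ((‖(U.mulVec (S x)) i‖ ^ 2 : ℝ) : ℂ)
        = (∑ j, U i j * S x j) * (starRingEnd ℂ) (∑ k, U i k * S x k) := by
      rw [Complex.mul_conj, Complex.normSq_eq_norm_sq]
      rfl
    rw [Complex.ofReal_mul, h1, map_sum, Finset.sum_mul_sum, Finset.sum_mul]
    refine Finset.sum_congr rfl fun j _ => ?_
    rw [Finset.sum_mul]
    refine Finset.sum_congr rfl fun k _ => ?_
    rw [map_mul]
    ring
  have h2 : ∫ x, ((‖(U.mulVec (S x)) i‖ ^ 2 * D x : ℝ) : ℂ) ∂μ = 1 := by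
    rw [e, integral_finsetSum _ (fun j _ => integrable_finsetSum _ fun k _ => (hI j k).const_mul _)]
    have h3 : ∀ j, ∫ x, ∑ k, (U i j * (starRingEnd ℂ) (U i k)) *
        (S x j * (starRingEnd ℂ) (S x k) * (D x : ℂ)) ∂μ = U i j * (starRingEnd ℂ) (U i j) := by
      intro j
      rw [integral_finsetSum _ (fun k _ => (hI j k).const_mul _)]
      simp_rw [integral_const_mul, horth]
      simp
    simp_rw [h3]
    have h4 := congrFun (congrFun hU i) i
    rw [Matrix.mul_apply, Matrix.one_apply_eq] at h4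
    exact h4
  rw [integral_complex_ofReal] at h2
  exact_mod_cast h2

theorem dv {μ : Measure X} [IsProbabilityMeasure μ] (hN : 0 < N) {S : X → Fin N → ℂ}
    {D : X → ℝ} {θ m m' d d' : ℝ}
    (hS : ∀ c : Fin N → ℂ, Measurable fun x => ‖∑ j, c j * S x j‖) (hm : 0 < m)
    (hS1 : ∀ x, m ≤ ∑ j, ‖S x j‖ ^ 2) (hS2 : ∀ x, ∑ j, ‖S x j‖ ^ 2 ≤ m') (hθ : 0 < θ)
    (hD : Measurable D) (hd : 0 < d) (hD1 : ∀ x, d ≤ D x) (hD2 : ∀ x, D x ≤ d')
    (horth : ∀ i j, ∫ x, S x i * (starRingEnd ℂ) (S x j) * (D x : ℂ) ∂μ = if i = j then 1 else 0)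
    (hcv : ∀ C : Matrix (Fin N) (Fin N) ℂ, IsUnit C.det → ConvexOn ℝ univ (FF μ θ S C))
    {C : Matrix (Fin N) (Fin N) ℂ} (hC : IsUnit C.det) (lam : Fin N → ℝ) :
    (∫ x, Real.log (D x * (∑ j, ‖S x j‖ ^ 2) ^ θ * (∫ x, (∑ j, ‖S x j‖ ^ 2) ^ (-θ) ∂μ)) *
        ((∑ j, ‖S x j‖ ^ 2) ^ (-θ) / (∫ x, (∑ j, ‖S x j‖ ^ 2) ^ (-θ) ∂μ)) ∂μ) + Real.log m
      ≤ Real.log (∑ i, Real.exp (-(θ * lam i))) + slope (FF μ θ S C) lam := by
  obtain ⟨C', σ, hC', hU, hflag⟩ := exists_unitary hC lam
  set U : Matrix (Fin N) (Fin N) ℂ := C' * C with hUdef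
  have hUdet : IsUnit U.det := by rw [hUdef, Matrix.det_mul]; exact hC'.mul hC
  set l : Fin N → ℝ := fun i => lam (σ i) with hl
  have hslope : slope (FF μ θ S U) l ≤ slope (FF μ θ S C) lam :=
    slope_flag hS hm hS1 hS2 hθ hC hC' (hcv C hC) (hcv _ hUdet) hflag
  have hsum : ∑ i, Real.exp (-(θ * l i)) = ∑ i, Real.exp (-(θ * lam i)) :=
    Equiv.sum_comp σ (fun i => Real.exp (-(θ * lam i)))
  -- basic functions
  set nn : X → ℝ := fun x => ∑ j, ‖S x j‖ ^ 2 with hnn
  have hnm : Measurable nn := Finset.measurable_sum _ fun j _ => (meas_norm hS j).pow_const 2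
  have hnpos : ∀ x, 0 < nn x := fun x => lt_of_lt_of_le hm (hS1 x)
  haveI : Nonempty X := nonempty_of_isProbabilityMeasure μ
  obtain ⟨hZint, hZpos⟩ := rpow_int (μ := μ) hnm hm (fun x => ⟨hS1 x, hS2 x⟩) (-θ)
  set Z : ℝ := ∫ x, nn x ^ (-θ) ∂μ with hZdef
  set β : X → ℝ := fun x => nn x ^ (-θ) / Z with hβ
  have hβpos : ∀ x, 0 < β x := fun x => div_pos (Real.rpow_pos_of_pos (hnpos x) _) hZpos
  have hβint : Integrable β μ := hZint.div_const Z
  have hβ1 : ∫ x, β x ∂μ = 1 := by
    rw [hβ, integral_div]; exact div_self hZpos.ne'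
  have hβm : Measurable β := (hnm.pow_const _).div_const _
  have hβle : ∀ x, β x ≤ m ^ (-θ) / Z := fun x => by
    have := Real.rpow_le_rpow_of_nonpos hm (hS1 x) (by linarith : -θ ≤ 0)
    exact div_le_div_of_nonneg_right this hZpos.le
  set P : Fin N → X → ℝ := fun i x => ‖(U.mulVec (S x)) i‖ ^ 2 / nn x with hP
  have hP0 : ∀ i x, 0 ≤ P i x := fun i x => div_nonneg (sq_nonneg _) (hnpos x).le
  have hP1 : ∀ x, ∑ i, P i x = 1 := fun x => by
    rw [hP]
    simp only
    rw [← Finset.sum_div, norm_unitary hU]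
    exact div_self (hnpos x).ne'
  have hPm : ∀ i, Measurable (P i) := fun i => ((hS (U i)).pow_const 2).div hnm
  set v : X → ℝ := fun x => ∑ i, P i x * l i with hv
  have hvm : Measurable v := Finset.measurable_sum _ fun i _ => (hPm i).mul_const _
  set Λ : ℝ := ‖l‖ with hΛ
  have hΛ0 : 0 ≤ Λ := norm_nonneg _
  have hlΛ : ∀ i, |l i| ≤ Λ := fun i => norm_le_pi_norm l i
  have hvΛ : ∀ x, |v x| ≤ Λ := fun x => by
    calc |v x| ≤ ∑ i, |P i x * l i| := Finset.abs_sum_le_sum_abs _ _
      _ ≤ ∑ i, P i x * Λ := Finset.sum_le_sum fun i _ => by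
          rw [abs_mul, abs_of_nonneg (hP0 i x)]
          exact mul_le_mul_of_nonneg_left (hlΛ i) (hP0 i x)
      _ = Λ := by rw [← Finset.sum_mul, hP1, one_mul]
  have hvβ : Integrable (fun x => v x * β x) μ := by
    refine int_of_bdd (hvm.mul hβm) ⟨Λ * (m ^ (-θ) / Z), fun x => ?_⟩
    rw [abs_mul, abs_of_pos (hβpos x)]
    exact mul_le_mul (hvΛ x) (hβle x) (hβpos x).le hΛ0
  set J : ℝ := ∫ x, v x * β x ∂μ with hJ
  -- Jensen for the exponential
  have hjen : ∀ (x : X) (t : ℝ), Real.exp (t * v x) ≤ ∑ i, P i x * Real.exp (t * l i) := by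
    intro x t
    have h := convexOn_exp.map_sum_le (t := Finset.univ) (w := fun i => P i x)
      (p := fun i => t * l i) (fun i _ => hP0 i x) (hP1 x) (fun i _ => Set.mem_univ _)
    simp only [smul_eq_mul] at h
    refine le_trans (le_of_eq ?_) h
    congr 1
    rw [hv, Finset.mul_sum]
    exact Finset.sum_congr rfl fun i _ => by ring
  -- Step B
  have hB : θ * J ≤ slope (FF μ θ S U) l := by
    have L2 := fun w => FF_lip_zero (μ := μ) hS hm hS1 hS2 hθ hUdet w
    have e0 : FF μ θ S U 0 = -Real.log Z := by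
      rw [FF_eq, hZdef]
      congr 2
      refine integral_congr_ae (Eventually.of_forall fun x => ?_)
      show (GG S U 0 x) ^ (-θ) = nn x ^ (-θ)
      congr 1
      unfold GG
      simp only [Pi.zero_apply, Real.exp_zero, one_mul]
      exact norm_unitary hU _
    have key : ∀ t : ℝ, 0 < t → θ * t * Λ ≤ 1 → θ * J - t * (θ * Λ) ^ 2
        ≤ slope (FF μ θ S U) l := by
      intro t ht htΛ
      refine le_trans ?_ (quot_le_slope L2 l ht)
      rw [le_div_iff₀ ht, e0, FF_eq]
      obtain ⟨a, b, ha, hb, hab⟩ := GG_bounds hm hS1 hS2 hUdet (t • l)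
      obtain ⟨i1, p1⟩ := rpow_int (μ := μ) (GG_measurable hS U (t • l)) ha hab (-θ)
      have hpt : ∀ x, (GG S U (t • l) x) ^ (-θ)
          ≤ Z * (β x * (1 + (θ * t * Λ) ^ 2) - θ * t * (v x * β x)) := by
        intro x
        have g1 : nn x * Real.exp (t * v x) ≤ GG S U (t • l) x := by
          have h1 := mul_le_mul_of_nonneg_left (hjen x t) (hnpos x).le
          refine h1.trans (le_of_eq ?_)
          unfold GG
          rw [Finset.mul_sum]
          refine Finset.sum_congr rfl fun i _ => ?_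
          simp only [hP, Pi.smul_apply, smul_eq_mul]
          have := (hnpos x).ne'
          field_simp
        have g2 := Real.rpow_le_rpow_of_nonpos (mul_pos (hnpos x) (Real.exp_pos _)) g1
          (by linarith : -θ ≤ 0)
        rw [Real.mul_rpow (hnpos x).le (Real.exp_pos _).le, ← Real.exp_mul] at g2
        have hy : |t * v x * -θ| ≤ θ * t * Λ := by
          rw [abs_mul, abs_mul, abs_neg, abs_of_pos ht, abs_of_pos hθ]
          have := mul_le_mul_of_nonneg_left (hvΛ x) (mul_pos hθ ht).le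
          linarith
        have g3 := Real.abs_exp_sub_one_sub_id_le (hy.trans htΛ)
        have g4 := (abs_le.1 g3).2
        have g5 : (t * v x * -θ) ^ 2 ≤ (θ * t * Λ) ^ 2 := by
          rw [← sq_abs]
          exact pow_le_pow_left₀ (abs_nonneg _) hy 2
        have g6 : Real.exp (t * v x * -θ) ≤ (1 + (θ * t * Λ) ^ 2) - θ * t * v x := by linarith
        have g7 : nn x ^ (-θ) = Z * β x := by
          simp only [hβ]
          field_simp
        have g8 : 0 < nn x ^ (-θ) := Real.rpow_pos_of_pos (hnpos x) _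
        calc (GG S U (t • l) x) ^ (-θ) ≤ nn x ^ (-θ) * Real.exp (t * v x * -θ) := g2
          _ ≤ nn x ^ (-θ) * ((1 + (θ * t * Λ) ^ 2) - θ * t * v x) :=
              mul_le_mul_of_nonneg_left g6 g8.le
          _ = _ := by rw [g7]; ring
      have hI : ∫ x, (GG S U (t • l) x) ^ (-θ) ∂μ
          ≤ Z * ((1 + (θ * t * Λ) ^ 2) - θ * t * J) := by
        have i2 : Integrable (fun x => Z * (β x * (1 + (θ * t * Λ) ^ 2) - θ * t * (v x * β x))) μ :=
          ((hβint.mul_const _).sub (hvβ.const_mul _)).const_mul _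
        refine (integral_mono i1 i2 hpt).trans (le_of_eq ?_)
        rw [integral_const_mul, integral_sub (hβint.mul_const _) (hvβ.const_mul _),
          integral_mul_const, integral_const_mul, hβ1, one_mul]
      have hI2 : ∫ x, (GG S U (t • l) x) ^ (-θ) ∂μ
          ≤ Z * Real.exp ((θ * t * Λ) ^ 2 - θ * t * J) := by
        refine hI.trans (mul_le_mul_of_nonneg_left ?_ hZpos.le)
        have := Real.add_one_le_exp ((θ * t * Λ) ^ 2 - θ * t * J)
        linarith
      have hlog := Real.log_le_log p1 hI2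
      rw [Real.log_mul hZpos.ne' (Real.exp_pos _).ne', Real.log_exp] at hlog
      have e3 : (θ * t * Λ) ^ 2 = t * (θ * Λ) ^ 2 * t := by ring
      rw [e3] at hlog
      nlinarith
    -- let t → 0
    refine le_of_forall_pos_le_add fun ε hε => ?_
    set t : ℝ := min (1 / (θ * Λ + 1)) (ε / ((θ * Λ) ^ 2 + 1)) with htdef
    have hθΛ : 0 ≤ θ * Λ := mul_nonneg hθ.le hΛ0
    have ht : 0 < t := lt_min (by positivity) (by positivity)
    have h1 : θ * t * Λ ≤ 1 := by
      have h2 : t ≤ 1 / (θ * Λ + 1) := min_le_left _ _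
      rw [le_div_iff₀ (by positivity)] at h2
      nlinarith
    have h3 : t * (θ * Λ) ^ 2 ≤ ε := by
      have h2 : t ≤ ε / ((θ * Λ) ^ 2 + 1) := min_le_right _ _
      rw [le_div_iff₀ (by positivity)] at h2
      nlinarith
    have := key t ht h1
    linarith
  -- Step C
  set A : X → ℝ := fun x => Real.log (D x * nn x ^ θ * Z) with hA
  have hnθm : Measurable fun x => nn x ^ θ := hnm.pow_const _
  have hAm : Measurable A := Real.measurable_log.comp ((hD.mul hnθm).mul_const _)
  have hDpos : ∀ x, 0 < D x := fun x => lt_of_lt_of_le hd (hD1 x)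
  have hnθ : ∀ x, 0 < nn x ^ θ := fun x => Real.rpow_pos_of_pos (hnpos x) _
  have hm'pos : 0 < m' := lt_of_lt_of_le (hnpos (Classical.arbitrary X)) (hS2 _)
  have hd'pos : 0 < d' := lt_of_lt_of_le (hDpos (Classical.arbitrary X)) (hD2 _)
  have hAb : ∀ x, |A x| ≤ |Real.log (d * m ^ θ * Z)| + |Real.log (d' * m' ^ θ * Z)| := by
    intro x
    have h1 : d * m ^ θ * Z ≤ D x * nn x ^ θ * Z := by
      have a1 := hD1 x
      have a2 := Real.rpow_le_rpow hm.le (hS1 x) hθ.le
      have a3 : 0 < m ^ θ := Real.rpow_pos_of_pos hm _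
      exact mul_le_mul_of_nonneg_right (mul_le_mul a1 a2 a3.le (hDpos x).le) hZpos.le
    have h2 : D x * nn x ^ θ * Z ≤ d' * m' ^ θ * Z := by
      have a1 := hD2 x
      have a2 := Real.rpow_le_rpow (hnpos x).le (hS2 x) hθ.le
      exact mul_le_mul_of_nonneg_right (mul_le_mul a1 a2 (hnθ x).le hd'pos.le) hZpos.le
    have h0 : 0 < d * m ^ θ * Z := mul_pos (mul_pos hd (Real.rpow_pos_of_pos hm _)) hZpos
    have l1 := Real.log_le_log h0 h1
    have l2 := Real.log_le_log (h0.trans_le h1) h2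
    have n1 := neg_abs_le (Real.log (d * m ^ θ * Z))
    have n2 := le_abs_self (Real.log (d' * m' ^ θ * Z))
    have n3 := abs_nonneg (Real.log (d * m ^ θ * Z))
    have n4 := abs_nonneg (Real.log (d' * m' ^ θ * Z))
    exact abs_le.2 ⟨by simp only [hA]; linarith, by simp only [hA]; linarith⟩
  have hAβ : Integrable (fun x => A x * β x) μ := by
    refine int_of_bdd (hAm.mul hβm)
      ⟨(|Real.log (d * m ^ θ * Z)| + |Real.log (d' * m' ^ θ * Z)|) * (m ^ (-θ) / Z), fun x => ?_⟩
    rw [abs_mul, abs_of_pos (hβpos x)]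
    exact mul_le_mul (hAb x) (hβle x) (hβpos x).le (by positivity)
  set w : X → ℝ := fun x => Real.exp (-θ * v x) * D x with hw
  have hwm : Measurable w := (Real.measurable_exp.comp (hvm.const_mul _)).mul hD
  have hwpos : ∀ x, 0 < w x := fun x => mul_pos (Real.exp_pos _) (hDpos x)
  have hwle : ∀ x, w x ≤ Real.exp (θ * Λ) * d' := fun x => by
    have h1 : -θ * v x ≤ θ * Λ := by
      have := (abs_le.1 (hvΛ x)).1
      nlinarith
    exact mul_le_mul (Real.exp_le_exp.2 h1) (hD2 x) (hDpos x).le (Real.exp_pos _).le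
  have hwint : Integrable w μ := int_of_bdd hwm ⟨_, fun x => by
    rw [abs_of_pos (hwpos x)]; exact hwle x⟩
  set I : ℝ := ∫ x, w x ∂μ with hIdef
  have hwge : ∀ x, Real.exp (-(θ * Λ)) * d ≤ w x := fun x => by
    have h1 : -(θ * Λ) ≤ -θ * v x := by
      have := (abs_le.1 (hvΛ x)).2
      nlinarith
    exact mul_le_mul (Real.exp_le_exp.2 h1) (hD1 x) hd.le (Real.exp_pos _).le
  have hIpos : 0 < I := by
    refine lt_of_lt_of_le (mul_pos (Real.exp_pos (-(θ * Λ))) hd) ?_
    calc Real.exp (-(θ * Λ)) * d = ∫ x, Real.exp (-(θ * Λ)) * d ∂μ := by simp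
      _ ≤ I := integral_mono (integrable_const _) hwint hwge
  -- Jensen for the logarithm
  have hC1 : ∫ x, (A x * β x) ∂μ - θ * J ≤ Real.log I := by
    have hpt : ∀ x, A x * β x - θ * (v x * β x) ≤ (Real.log I - 1) * β x + w x / I := by
      intro x
      have hwβ : w x = Real.exp (-θ * v x) * (D x * nn x ^ θ * Z) * β x := by
        simp only [hw, hβ]
        have h1 : nn x ^ θ * nn x ^ (-θ) = 1 := by
          rw [← Real.rpow_add (hnpos x)]; simp
        have : Real.exp (-θ * v x) * (D x * nn x ^ θ * Z) * (nn x ^ (-θ) / Z)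
            = Real.exp (-θ * v x) * D x * (nn x ^ θ * nn x ^ (-θ)) * (Z / Z) := by ring
        rw [this, h1, div_self hZpos.ne']
        ring
      have hW : 0 < Real.exp (-θ * v x) * (D x * nn x ^ θ * Z) :=
        mul_pos (Real.exp_pos _) (mul_pos (mul_pos (hDpos x) (hnθ x)) hZpos)
      have h1 := Real.log_le_sub_one_of_pos (div_pos hW hIpos)
      rw [Real.log_div hW.ne' hIpos.ne', Real.log_mul (Real.exp_pos _).ne'
        (mul_pos (mul_pos (hDpos x) (hnθ x)) hZpos).ne', Real.log_exp] at h1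
      have h2 := mul_le_mul_of_nonneg_right h1 (hβpos x).le
      have h3 : (Real.exp (-θ * v x) * (D x * nn x ^ θ * Z) / I - 1) * β x = w x / I - β x := by
        rw [hwβ]; ring
      rw [h3] at h2
      simp only [hA]
      linarith
    have h4 := integral_mono (hAβ.sub (hvβ.const_mul θ))
      ((hβint.const_mul (Real.log I - 1)).add (hwint.div_const I)) hpt
    have h5 : ∫ x, ((fun x => A x * β x) - fun x => θ * (v x * β x)) x ∂μ
        = ∫ x, (A x * β x) ∂μ - θ * J := by
      rw [integral_sub' hAβ (hvβ.const_mul θ), integral_const_mul]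
    have h6 : ∫ x, ((fun x => (Real.log I - 1) * β x) + fun x => w x / I) x ∂μ
        = (Real.log I - 1) * 1 + 1 := by
      rw [integral_add' (hβint.const_mul _) (hwint.div_const I), integral_const_mul, hβ1,
        integral_div]
      congr 1
      exact div_self hIpos.ne'
    have h7 : ∫ x, (A x * β x) ∂μ - θ * J ≤ (Real.log I - 1) * 1 + 1 := by
      rw [← h5, ← h6]; exact h4
    linarith
  have hC2 : I ≤ (∑ i, Real.exp (-(θ * l i))) / m := by
    have hPD : ∀ i, Integrable (fun x => P i x * D x) μ := fun i => by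
      refine int_of_bdd ((hPm i).mul hD) ⟨1 * d', fun x => ?_⟩
      rw [abs_mul, abs_of_nonneg (hP0 i x), abs_of_pos (hDpos x)]
      have h1 : P i x ≤ 1 := by
        rw [← hP1 x]
        exact Finset.single_le_sum (f := fun i => P i x) (fun j _ => hP0 j x) (Finset.mem_univ i)
      exact mul_le_mul h1 (hD2 x) (hDpos x).le zero_le_one
    have hPD1 : ∀ i, ∫ x, P i x * D x ∂μ ≤ 1 / m := by
      intro i
      have hUint := int_unitary (μ := μ) hS hS2 hD hd hD1 hD2 horth hU i
      have hUm : Measurable fun x => ‖(U.mulVec (S x)) i‖ ^ 2 * D x :=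
        ((hS (U i)).pow_const 2).mul hD
      have hUi : Integrable (fun x => ‖(U.mulVec (S x)) i‖ ^ 2 * D x) μ := by
        by_contra hno
        rw [integral_undef hno] at hUint
        exact zero_ne_one hUint
      calc ∫ x, P i x * D x ∂μ ≤ ∫ x, (1 / m) * (‖(U.mulVec (S x)) i‖ ^ 2 * D x) ∂μ := by
            refine integral_mono (hPD i) (hUi.const_mul _) fun x => ?_
            simp only [hP]
            have h1 : ‖(U.mulVec (S x)) i‖ ^ 2 / nn x ≤ ‖(U.mulVec (S x)) i‖ ^ 2 / m :=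
              div_le_div_of_nonneg_left (sq_nonneg _) hm (hS1 x)
            calc ‖(U.mulVec (S x)) i‖ ^ 2 / nn x * D x
                ≤ ‖(U.mulVec (S x)) i‖ ^ 2 / m * D x :=
                  mul_le_mul_of_nonneg_right h1 (hDpos x).le
              _ = _ := by ring
        _ = 1 / m := by rw [integral_const_mul, hUint, mul_one]
    calc I ≤ ∫ x, ∑ i, Real.exp (-(θ * l i)) * (P i x * D x) ∂μ := by
          refine integral_mono hwint (integrable_finsetSum _ fun i _ => (hPD i).const_mul _)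
            fun x => ?_
          have h1 := hjen x (-θ)
          have h2 := mul_le_mul_of_nonneg_right h1 (hDpos x).le
          refine h2.trans (le_of_eq ?_)
          rw [Finset.sum_mul]
          refine Finset.sum_congr rfl fun i _ => ?_
          rw [neg_mul]
          ring
      _ = ∑ i, Real.exp (-(θ * l i)) * ∫ x, P i x * D x ∂μ := by
          rw [integral_finsetSum _ fun i _ => (hPD i).const_mul _]
          simp_rw [integral_const_mul]
      _ ≤ ∑ i, Real.exp (-(θ * l i)) * (1 / m) := Finset.sum_le_sum fun i _ =>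
          mul_le_mul_of_nonneg_left (hPD1 i) (Real.exp_pos _).le
      _ = _ := by rw [← Finset.sum_mul]; ring
  have hC3 : Real.log I ≤ Real.log (∑ i, Real.exp (-(θ * lam i))) - Real.log m := by
    have h1 := Real.log_le_log hIpos hC2
    have h2 : 0 < ∑ i, Real.exp (-(θ * l i)) := by
      haveI : Nonempty (Fin N) := ⟨⟨0, hN⟩⟩
      exact Finset.sum_pos (fun i _ => Real.exp_pos _) Finset.univ_nonempty
    rw [Real.log_div h2.ne' hm.ne', hsum] at h1
    exact h1
  have hfin : ∫ x, (A x * β x) ∂μ + Real.log m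
      ≤ Real.log (∑ i, Real.exp (-(θ * lam i))) + slope (FF μ θ S C) lam := by
    linarith
  exact hfin

end Pool.Agent.helper63.NU
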